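import Pool.Agent.H45.EG3.S1

/-!
# EG3: rows EV1, EV2, WNG (pencils of linear maps)
-/

set_option autoImplicit false

namespace Pool.EG378

open Pool.EG3

theorem t_ev1 : EV1Stmt := by
  intro K _ _ E F _ _ _ _ _ _ S T h h0
  have hnt : Nontrivial E := Module.nontrivial_of_finrank_pos (R := K) (Nat.pos_of_ne_zero h0)
  by_cases hT : Function.Injective T
  · have h1 : Module.finrank K E ≤ Module.finrank K F := LinearMap.finrank_le_finrank_of_injective hT
    have h2 : Module.finrank K E = Module.finrank K F := le_antisymm h1 h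
    let e : E ≃ₗ[K] F := LinearEquiv.ofInjectiveOfFinrankEq T hT h2
    have he : ∀ x, e x = T x := fun x => rfl
    obtain ⟨μ, hμ⟩ := Module.End.exists_eigenvalue (e.symm.toLinearMap ∘ₗ S)
    obtain ⟨v, hv⟩ := hμ.exists_hasEigenvector
    refine ⟨1, -μ, Or.inl one_ne_zero, v, hv.2, ?_⟩
    have h3 : e.symm (S v) = μ • v := hv.apply_eq_smul
    have h4 : S v = μ • T v := by
      rw [← he v, ← map_smul, ← h3, LinearEquiv.apply_symm_apply]
    rw [h4, one_smul, neg_smul, add_neg_cancel]
  · have h3 : ∃ v : E, v ≠ 0 ∧ T v = 0 := by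
      by_contra hc
      push Not at hc
      apply hT
      rw [← LinearMap.ker_eq_bot, eq_bot_iff]
      intro x hx
      by_contra hx0
      exact hc x hx0 hx
    obtain ⟨v, hv, hv0⟩ := h3
    exact ⟨0, 1, Or.inr one_ne_zero, v, hv, by rw [hv0]; simp⟩

theorem t_ev2 : EV2Stmt := by
  intro K _ _ E F _ _ _ _ _ _ S T h h0
  have hnt : Nontrivial F := Module.nontrivial_of_finrank_pos (R := K) (Nat.pos_of_ne_zero h0)
  by_cases hT : Function.Surjective T
  · have h1 : Module.finrank K F ≤ Module.finrank K E := LinearMap.finrank_le_finrank_of_surjective hT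
    have h2 : Module.finrank K E = Module.finrank K F := le_antisymm h h1
    have hi : Function.Injective T := (LinearMap.injective_iff_surjective_of_finrank_eq_finrank h2).2 hT
    let e : E ≃ₗ[K] F := LinearEquiv.ofInjectiveOfFinrankEq T hi h2
    have he : ∀ x, e x = T x := fun x => rfl
    obtain ⟨μ, hμ⟩ := Module.End.exists_eigenvalue (S ∘ₗ e.symm.toLinearMap)
    obtain ⟨v, hv⟩ := hμ.exists_hasEigenvector
    have h3 : S (e.symm v) = μ • v := hv.apply_eq_smul
    by_contra hc
    push Not at hc
    have hs : Function.Surjective ((1 : K) • S + (-μ) • T) := by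
      intro w
      obtain ⟨x, hx⟩ := hc 1 (-μ) (Or.inl one_ne_zero) w
      exact ⟨x, by simpa using hx⟩
    have hs' := (LinearMap.injective_iff_surjective_of_finrank_eq_finrank h2).2 hs
    have h5 : ((1 : K) • S + (-μ) • T) (e.symm v) = 0 := by
      have h6 : T (e.symm v) = v := by rw [← he, LinearEquiv.apply_symm_apply]
      simp [h3, h6]
    have h7 : e.symm v = 0 := hs' (by rw [h5, map_zero])
    have h8 : v = 0 := by simpa using h7
    exact hv.2 h8
  · have h3 : ∃ w : F, ∀ v, T v ≠ w := by
      by_contra hc
      push Not at hc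
      exact hT hc
    obtain ⟨w, hw⟩ := h3
    exact ⟨0, 1, Or.inr one_ne_zero, w, fun v hv => hw v (by simpa using hv)⟩

section
variable {K : Type} [Field K] {E F : Type} [AddCommGroup E] [Module K E]
    [AddCommGroup F] [Module K F]

/-- The Wong sequence. -/
noncomputable def wng (S T : E →ₗ[K] F) : ℕ → Submodule K E
  | 0 => ⊥
  | n + 1 => ((wng S T n).map T).comap S

theorem wng_mono (S T : E →ₗ[K] F) : Monotone (wng S T) := by
  apply monotone_nat_of_le_succ
  intro n
  induction n with
  | zero => exact bot_le
  | succ n ih => exact Submodule.comap_mono (Submodule.map_mono ih)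

end

theorem t_wng : WNGStmt := by
  intro K _ _ E F _ _ _ _ _ _ S T hs
  obtain ⟨n, hn⟩ := monotone_stabilizes_iff_noetherian.2 (inferInstance : IsNoetherian K E)
    ⟨wng S T, wng_mono S T⟩
  have hn' : ∀ m, n ≤ m → wng S T n = wng S T m := hn
  set V := wng S T n with hV
  have hVV : V = (V.map T).comap S := hn' (n + 1) (Nat.le_succ n)
  have hSV : V.map S ≤ V.map T := by
    rw [Submodule.map_le_iff_le_comap]
    exact hVV.le
  by_cases hT : ∀ x ∈ V, T x = 0 → x = 0
  · exfalso
    have hS1 : V ≤ (V.map T).comap S := hVV.le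
    have hT1 : V ≤ (V.map T).comap T := Submodule.le_comap_map T V
    have hinj : Function.Injective (Submodule.mapQ V (V.map T) S hS1) := by
      rw [← LinearMap.ker_eq_bot, eq_bot_iff]
      intro x hx
      obtain ⟨y, rfl⟩ := Submodule.Quotient.mk_surjective V x
      rw [LinearMap.mem_ker, Submodule.mapQ_apply, Submodule.Quotient.mk_eq_zero] at hx
      rw [Submodule.mem_bot, Submodule.Quotient.mk_eq_zero, hVV]
      exact hx
    obtain ⟨L, hL⟩ := LinearMap.exists_leftInverse_of_injective _
      (LinearMap.ker_eq_bot.2 hinj)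
    let A : Module.End K (E ⧸ V) := L ∘ₗ Submodule.mapQ V (V.map T) T hT1
    have hfin : Set.Finite {μ : K | Module.End.HasEigenvalue A μ} :=
      Module.End.finite_hasEigenvalue A
    have hfin2 : Set.Finite ((fun μ : K => (-μ)⁻¹) '' {μ : K | Module.End.HasEigenvalue A μ} ∪ {0}) :=
      (hfin.image _).union (Set.finite_singleton 0)
    obtain ⟨a, ha⟩ := hfin2.infinite_compl.nonempty
    have ha0 : a ≠ 0 := fun h => ha (Or.inr h)
    obtain ⟨x, hx0, hx⟩ := hs 1 a (Or.inl one_ne_zero)
    rw [one_smul] at hx
    have hxV : x ∈ V := by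
      by_contra hxV
      apply ha
      left
      refine ⟨-a⁻¹, ?_, by simp⟩
      have hq : (Submodule.Quotient.mk x : E ⧸ V) ≠ 0 := by
        rw [Ne, Submodule.Quotient.mk_eq_zero]; exact hxV
      refine Module.End.hasEigenvalue_of_hasEigenvector (x := Submodule.Quotient.mk x)
        (Module.End.hasEigenvector_iff.2 ⟨?_, hq⟩)
      rw [Module.End.mem_eigenspace_iff]
      have h1 : Submodule.mapQ V (V.map T) S hS1 (Submodule.Quotient.mk x)
          = -(a • Submodule.mapQ V (V.map T) T hT1 (Submodule.Quotient.mk x)) := by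
        rw [Submodule.mapQ_apply, Submodule.mapQ_apply, ← Submodule.Quotient.mk_smul,
          ← Submodule.Quotient.mk_neg, eq_neg_of_add_eq_zero_left hx]
      have h2 : (Submodule.Quotient.mk x : E ⧸ V) = -(a • A (Submodule.Quotient.mk x)) := by
        have h3 := congrArg L h1
        rw [map_neg, map_smul] at h3
        rw [← LinearMap.comp_apply, hL, LinearMap.id_apply] at h3
        exact h3
      have h4 : a • A (Submodule.Quotient.mk x) = -(Submodule.Quotient.mk x : E ⧸ V) := by
        rw [eq_neg_iff_add_eq_zero, add_comm]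
        nth_rewrite 1 [h2]
        simp
      have h5 : A (Submodule.Quotient.mk x) = a⁻¹ • (a • A (Submodule.Quotient.mk x)) := by
        rw [smul_smul, inv_mul_cancel₀ ha0, one_smul]
      rw [h5, h4]
      simp
    have hdown : ∀ i, x ∈ wng S T i := by
      have hstep : ∀ i, x ∈ wng S T (i + 1) → x ∈ wng S T i := by
        intro i hi
        have h1 : S x ∈ (wng S T i).map T := hi
        have h2 : T x ∈ (wng S T i).map T := by
          have h3 : T x = -(a⁻¹ • S x) := by
            rw [eq_neg_of_add_eq_zero_left hx, smul_neg, neg_neg, smul_smul,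
              inv_mul_cancel₀ ha0, one_smul]
          rw [h3]
          exact Submodule.neg_mem _ (Submodule.smul_mem _ _ h1)
        obtain ⟨v, hv, hvx⟩ := h2
        have hvV : v ∈ V := by
          rcases le_total i n with hin | hin
          · exact wng_mono S T hin hv
          · rw [hn' i hin]; exact hv
        have h4 : x - v = 0 := hT _ (V.sub_mem hxV hvV) (by rw [map_sub, hvx, sub_self])
        rw [sub_eq_zero.1 h4]
        exact hv
      have hk : ∀ k, x ∈ wng S T (n - k) := by
        intro k
        induction k with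
        | zero => exact hxV
        | succ k ih =>
          rcases Nat.lt_or_ge k n with h | h
          · apply hstep
            have : n - (k + 1) + 1 = n - k := by omega
            rw [this]; exact ih
          · have : n - (k + 1) = n - k := by omega
            rw [this]; exact ih
      have h0 := hk n
      rw [Nat.sub_self] at h0
      intro i
      exact wng_mono S T (Nat.zero_le i) h0
    exact hx0 (by simpa [wng] using hdown 0)
  · push Not at hT
    obtain ⟨x, hxV, hx, hx0⟩ := hT
    refine ⟨V, ?_⟩
    rw [sup_eq_right.2 hSV]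
    have hnot : ¬ Function.Injective (T.domRestrict V) := by
      intro hi
      exact hx0 (congrArg Subtype.val (hi (a₁ := ⟨x, hxV⟩) (a₂ := 0) (by simpa using hx)))
    have hr := LinearMap.finrank_range_add_finrank_ker (T.domRestrict V)
    have hk : 0 < Module.finrank K (LinearMap.ker (T.domRestrict V)) := by
      rw [Nat.pos_iff_ne_zero, Ne, Submodule.finrank_eq_zero, LinearMap.ker_eq_bot]
      exact hnot
    have hm : V.map T = LinearMap.range (T.domRestrict V) := by
      rw [LinearMap.range_domRestrict]
    rw [hm]
    omega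

end Pool.EG378
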